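import Mathlib

/-!
# The explicit isogeny of degree `7` between `E_m : y² = x³ - 35 m² x - 98 m³` and `E_{-7m}`
-/

set_option autoImplicit false

namespace Pool.Agent.L0h98.T7

/-- the denominator -/
def ps {k : Type*} [Field k] (m x : k) : k := x ^ 3 + 7 * m * x ^ 2 - 21 * m ^ 2 * x - 91 * m ^ 3

/-- the numerator of `x` -/
def nu {k : Type*} [Field k] (m x : k) : k :=
  x ^ 7 + 14 * m * x ^ 6 + 343 * m ^ 2 * x ^ 5 - 588 * m ^ 3 * x ^ 4 - 24353 * m ^ 4 * x ^ 3 -
    120050 * m ^ 5 * x ^ 2 - 285719 * m ^ 6 * x - 422576 * m ^ 7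

/-- the numerator of `y` -/
def mu {k : Type*} [Field k] (m x : k) : k :=
  x ^ 9 + 21 * m * x ^ 8 - 252 * m ^ 2 * x ^ 7 + 1764 * m ^ 3 * x ^ 6 + 43806 * m ^ 4 * x ^ 5 +
    519302 * m ^ 5 * x ^ 4 + 3834740 * m ^ 6 * x ^ 3 + 15183924 * m ^ 7 * x ^ 2 +
    27681129 * m ^ 8 * x + 8252237 * m ^ 9

theorem ident {k : Type*} [Field k] (m x : k) :
    (x ^ 3 - 35 * m ^ 2 * x - 98 * m ^ 3) * mu m x ^ 2 =
      nu m x ^ 3 - 1715 * m ^ 2 * nu m x * ps m x ^ 4 + 33614 * m ^ 3 * ps m x ^ 6 := by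
  unfold mu nu ps
  ring

/-- the points of `E_m` -/
def Em {k : Type*} [Field k] (m : k) : Set (k × k) :=
  {q | q.2 ^ 2 = q.1 ^ 3 - 35 * m ^ 2 * q.1 - 98 * m ^ 3}

lemma fin_x {k : Type*} [Field k] (m : k) {A : Set k} (hA : A.Finite) :
    {q ∈ Em m | q.1 ∈ A}.Finite := by
  have h1 : {q ∈ Em m | q.1 ∈ A} ⊆ ⋃ a ∈ A, (fun y => (a, y)) '' {y : k | y ^ 2 =
      a ^ 3 - 35 * m ^ 2 * a - 98 * m ^ 3} := by
    rintro ⟨x, y⟩ ⟨h2, h3⟩
    simp only [Set.mem_iUnion]
    exact ⟨x, h3, y, h2, rfl⟩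
  refine (hA.biUnion fun a _ => Set.Finite.image _ ?_).subset h1
  set c := a ^ 3 - 35 * m ^ 2 * a - 98 * m ^ 3
  by_cases h : ∃ y0 : k, y0 ^ 2 = c
  · obtain ⟨y0, hy0⟩ := h
    refine (Set.toFinite {y0, -y0}).subset fun y hy => ?_
    have h4 : (y - y0) * (y + y0) = 0 := by
      have : y ^ 2 = c := hy
      linear_combination this - hy0
    rcases mul_eq_zero.1 h4 with h5 | h5
    · left; linear_combination h5
    · right; show y = -y0; linear_combination h5
  · convert Set.finite_empty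
    ext y
    exact ⟨fun hy => h ⟨y, hy⟩, fun hy => hy.elim⟩

open Polynomial in
lemma fin_ps {k : Type*} [Field k] (m : k) : {x : k | ps m x = 0}.Finite := by
  set Q : k[X] := C (-(7 * m)) * X ^ 2 + C (21 * m ^ 2) * X + C (91 * m ^ 3) with hQ
  have hd : Q.natDegree ≤ 2 := by
    rw [hQ]
    compute_degree
  have h1 : {x : k | ps m x = 0} ⊆ {x | IsRoot (X ^ 3 - Q) x} := by
    intro x hx
    have hx' : ps m x = 0 := hx
    show eval x (X ^ 3 - Q) = 0
    rw [hQ]
    simp only [eval_sub, eval_add, eval_mul, eval_pow, eval_X, eval_C]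
    unfold ps at hx'
    linear_combination hx'
  refine (Polynomial.finite_setOfPred_isRoot ?_).subset h1
  intro h0
  have h2 : X ^ 3 = Q := by linear_combination h0
  have h3 : (X ^ 3 : k[X]).natDegree = 3 := natDegree_X_pow 3
  rw [h2] at h3
  omega

open Polynomial in
lemma fin_nu {k : Type*} [Field k] (m t : k) :
    {x : k | nu m x - t * ps m x ^ 2 = 0}.Finite := by
  set Q : k[X] := C (-(14 * m)) * X ^ 6 + C (-(343 * m ^ 2)) * X ^ 5 + C (588 * m ^ 3) * X ^ 4 +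
      C (24353 * m ^ 4) * X ^ 3 + C (120050 * m ^ 5) * X ^ 2 + C (285719 * m ^ 6) * X +
      C (422576 * m ^ 7) +
      C t * (X ^ 3 + C (7 * m) * X ^ 2 + C (-(21 * m ^ 2)) * X + C (-(91 * m ^ 3))) ^ 2 with hQ
  have hd : Q.natDegree ≤ 6 := by
    rw [hQ]
    compute_degree
  have h1 : {x : k | nu m x - t * ps m x ^ 2 = 0} ⊆ {x | IsRoot (X ^ 7 - Q) x} := by
    intro x hx
    have hx' : nu m x - t * ps m x ^ 2 = 0 := hx
    show eval x (X ^ 7 - Q) = 0
    rw [hQ]
    simp only [eval_sub, eval_add, eval_mul, eval_pow, eval_X, eval_C]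
    unfold nu ps at hx'
    linear_combination hx'
  refine (Polynomial.finite_setOfPred_isRoot ?_).subset h1
  intro h0
  have h2 : X ^ 7 = Q := by linear_combination h0
  have h3 : (X ^ 7 : k[X]).natDegree = 7 := natDegree_X_pow 7
  rw [h2] at h3
  omega

/-- **the isogeny**: if `E_m` has finitely many rational points then so does `E_{-7m}` -/
theorem fin7 {k : Type*} [Field k] [CharZero k] (m : k) (h : (Em m).Finite) :
    (Em (-7 * m)).Finite := by
  set n : k := -7 * m with hn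
  set T : Set k := Prod.fst '' Em m with hT
  have hTf : T.Finite := h.image _
  have h1 : Em n ⊆ {q ∈ Em n | q.1 ∈ {x : k | ps n x = 0}} ∪
      {q ∈ Em n | q.1 ∈ ⋃ t ∈ T, {x : k | nu n x - (49 * t) * ps n x ^ 2 = 0}} := by
    rintro ⟨x, y⟩ hq
    have hq' : y ^ 2 = x ^ 3 - 35 * n ^ 2 * x - 98 * n ^ 3 := hq
    by_cases h0 : ps n x = 0
    · exact Or.inl ⟨hq, h0⟩
    · right
      refine ⟨hq, ?_⟩
      simp only [Set.mem_iUnion]
      refine ⟨nu n x / ps n x ^ 2 / 49, ⟨(nu n x / ps n x ^ 2 / 49, y * mu n x / ps n x ^ 3 / 343),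
        ?_, rfl⟩, ?_⟩
      · show (y * mu n x / ps n x ^ 3 / 343) ^ 2 = (nu n x / ps n x ^ 2 / 49) ^ 3 -
          35 * m ^ 2 * (nu n x / ps n x ^ 2 / 49) - 98 * m ^ 3
        have h2 := ident n x
        have hm : m = -n / 7 := by
          rw [hn]
          field_simp
        have h3 : y ^ 2 * mu n x ^ 2 =
            nu n x ^ 3 - 1715 * n ^ 2 * nu n x * ps n x ^ 4 + 33614 * n ^ 3 * ps n x ^ 6 := by
          rw [hq', h2]
        rw [hm]
        have h4 : (y * mu n x / ps n x ^ 3 / 343) ^ 2 = (y ^ 2 * mu n x ^ 2) / (117649 * ps n x ^ 6) := by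
          field_simp
          norm_num
        rw [h4, h3]
        field_simp
        ring
      · show nu n x - 49 * (nu n x / ps n x ^ 2 / 49) * ps n x ^ 2 = 0
        field_simp
        ring
  refine Set.Finite.subset (Set.Finite.union (fin_x n (fin_ps n)) (fin_x n ?_)) h1
  exact hTf.biUnion fun t _ => fin_nu n _

end Pool.Agent.L0h98.T7
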