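import Pool.Agent.L0h1.KD.Rank
import Pool.Agent.L0h98.T7.Iso

/-!
# The Euler factors of `E_m` and `E_{-7m}` are the same
-/

set_option autoImplicit false

namespace Pool.Agent.L0h98.T7

open Pool.Agent.Y698 Pool.Agent.L0h1.KD
open scoped Classical

/-- the numbers of the points -/
theorem count_eq {p : ℕ} (hp : p.Prime) (h2 : p ≠ 2) (h7 : p ≠ 7) {m : ℤ} (hm : ¬ (p : ℤ) ∣ m) :
    Nat.card {q : ZMod p × ZMod p // q.2 ^ 2 = q.1 ^ 3 + ((-35 * (-7 * m) ^ 2 : ℤ) : ZMod p) * q.1 +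
      ((-98 * (-7 * m) ^ 3 : ℤ) : ZMod p)} =
    Nat.card {q : ZMod p × ZMod p // q.2 ^ 2 = q.1 ^ 3 + ((-35 * m ^ 2 : ℤ) : ZMod p) * q.1 +
      ((-98 * m ^ 3 : ℤ) : ZMod p)} := by
  have _ : Fact p.Prime := ⟨hp⟩
  have hF : ringChar (ZMod p) ≠ 2 := by rwa [ZMod.ringChar_zmod_n]
  have hm0 : ((m : ℤ) : ZMod p) ≠ 0 := by rwa [Ne, ZMod.intCast_zmod_eq_zero_iff_dvd]
  have h70 : (-7 : ZMod p) ≠ 0 := by
    intro h
    have h' : ((7 : ℕ) : ZMod p) = 0 := by push_cast; linear_combination -h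
    rw [ZMod.natCast_eq_zero_iff] at h'
    exact h7 ((Nat.prime_dvd_prime_iff_eq hp (by norm_num)).1 h')
  have t1 := count_tw hF (-35 * (m : ZMod p) ^ 2) (-98 * (m : ZMod p) ^ 3) h70
  have t2 := count_tw hF ((-35 : ℤ) : ZMod p) ((-98 : ℤ) : ZMod p) hm0
  have e1 : Nat.card {x : ZMod p × ZMod p // x.2 ^ 2 = x.1 ^ 3 +
      -35 * (m : ZMod p) ^ 2 * (-7) ^ 2 * x.1 + -98 * (m : ZMod p) ^ 3 * (-7) ^ 3} =
      Nat.card {q : ZMod p × ZMod p // q.2 ^ 2 = q.1 ^ 3 +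
        ((-35 * (-7 * m) ^ 2 : ℤ) : ZMod p) * q.1 + ((-98 * (-7 * m) ^ 3 : ℤ) : ZMod p)} := by
    congr 3
    funext q
    congr 2
    · congr 1
      push_cast
      ring
    · push_cast
      ring
  have e2 : Nat.card {x : ZMod p × ZMod p // x.2 ^ 2 = x.1 ^ 3 +
      -35 * (m : ZMod p) ^ 2 * x.1 + -98 * (m : ZMod p) ^ 3} =
      Nat.card {q : ZMod p × ZMod p // q.2 ^ 2 = q.1 ^ 3 +
        ((-35 * m ^ 2 : ℤ) : ZMod p) * q.1 + ((-98 * m ^ 3 : ℤ) : ZMod p)} := by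
    congr 3
    funext q
    push_cast
    rfl
  have e3 : Nat.card {x : ZMod p × ZMod p // x.2 ^ 2 = x.1 ^ 3 +
      ((-35 : ℤ) : ZMod p) * (m : ZMod p) ^ 2 * x.1 + ((-98 : ℤ) : ZMod p) * (m : ZMod p) ^ 3} =
      Nat.card {q : ZMod p × ZMod p // q.2 ^ 2 = q.1 ^ 3 +
        ((-35 * m ^ 2 : ℤ) : ZMod p) * q.1 + ((-98 * m ^ 3 : ℤ) : ZMod p)} := by
    congr 3
    funext q
    push_cast
    rfl
  rw [e1, e2, ZMod.card] at t1
  rw [e3, ZMod.card] at t2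
  by_cases hs : IsSquare (-7 : ZMod p)
  · rw [(quadraticChar_one_iff_isSquare h70).2 hs, one_mul] at t1
    have : ((Nat.card {q : ZMod p × ZMod p // q.2 ^ 2 = q.1 ^ 3 +
        ((-35 * (-7 * m) ^ 2 : ℤ) : ZMod p) * q.1 + ((-98 * (-7 * m) ^ 3 : ℤ) : ZMod p)} : ℕ) : ℤ) =
        ((Nat.card {q : ZMod p × ZMod p // q.2 ^ 2 = q.1 ^ 3 +
        ((-35 * m ^ 2 : ℤ) : ZMod p) * q.1 + ((-98 * m ^ 3 : ℤ) : ZMod p)} : ℕ) : ℤ) := by linarith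
    exact_mod_cast this
  · have hb := (bc_inert (irr_inert hp hs) hp).1
    rw [bc_odd hp h2 h7] at hb
    have h0 : (p : ℤ) - Nat.card (Aff (ZMod p)) = 0 := by exact_mod_cast hb
    have h1 : Nat.card (Aff (ZMod p)) = Nat.card {x : ZMod p × ZMod p // x.2 ^ 2 = x.1 ^ 3 +
      ((-35 : ℤ) : ZMod p) * x.1 + ((-98 : ℤ) : ZMod p)} := rfl
    rw [h1] at h0
    rw [h0, mul_zero] at t2
    rw [t2, mul_zero] at t1
    have : ((Nat.card {q : ZMod p × ZMod p // q.2 ^ 2 = q.1 ^ 3 +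
        ((-35 * (-7 * m) ^ 2 : ℤ) : ZMod p) * q.1 + ((-98 * (-7 * m) ^ 3 : ℤ) : ZMod p)} : ℕ) : ℤ) =
        ((Nat.card {q : ZMod p × ZMod p // q.2 ^ 2 = q.1 ^ 3 +
        ((-35 * m ^ 2 : ℤ) : ZMod p) * q.1 + ((-98 * m ^ 3 : ℤ) : ZMod p)} : ℕ) : ℤ) := by linarith
    exact_mod_cast this

/-- **the Euler factors** -/
theorem tg_seven (m : ℤ) (s : ℂ) (p : ℕ) :
    tg (-35 * (-7 * m) ^ 2) (-98 * (-7 * m) ^ 3) s p = tg (-35 * m ^ 2) (-98 * m ^ 3) s p := by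
  unfold tg
  by_cases hp : p.Prime
  · have hpi : Prime (p : ℤ) := Nat.prime_iff_prime_int.1 hp
    have hc : (p : ℤ) ∣ 2 * (-4 * (-35 * (-7 * m) ^ 2) ^ 3 - 27 * (-98 * (-7 * m) ^ 3) ^ 2) ↔
        (p : ℤ) ∣ 2 * (-4 * (-35 * m ^ 2) ^ 3 - 27 * (-98 * m ^ 3) ^ 2) := by
      rw [disc_eq, disc_eq, dvd_neg, dvd_neg]
      have e : (2 : ℤ) ^ 9 * (7 ^ 3 * (-7 * m) ^ 6) = 7 ^ 6 * (2 ^ 9 * (7 ^ 3 * m ^ 6)) := by ring
      rw [e]
      constructor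
      · intro h
        rcases hpi.dvd_or_dvd h with h1 | h1
        · have h2 : (p : ℤ) ∣ 7 := hpi.dvd_of_dvd_pow h1
          exact Dvd.dvd.mul_left (Dvd.dvd.mul_right (h2.trans (dvd_pow_self 7 (by norm_num))) _) _
        · exact h1
      · intro h
        exact Dvd.dvd.mul_left h _
    by_cases h : (p : ℤ) ∣ 2 * (-4 * (-35 * m ^ 2) ^ 3 - 27 * (-98 * m ^ 3) ^ 2)
    · rw [if_neg (fun h' => h'.2 (hc.2 h)), if_neg (fun h' => h'.2 h)]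
    · rw [if_pos ⟨hp, fun h' => h (hc.1 h')⟩, if_pos ⟨hp, h⟩]
      rw [disc_eq, dvd_neg] at h
      have h2 : p ≠ 2 := by
        rintro rfl
        exact h (Dvd.dvd.mul_right (dvd_pow_self 2 (by norm_num)) _)
      have h7 : p ≠ 7 := by
        rintro rfl
        exact h (Dvd.dvd.mul_left (Dvd.dvd.mul_right (dvd_pow_self 7 (by norm_num)) _) _)
      have hm : ¬ (p : ℤ) ∣ m := fun h' =>
        h (Dvd.dvd.mul_left (Dvd.dvd.mul_left (dvd_pow h' (by norm_num)) _) _)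
      rw [count_eq hp h2 h7 hm]
  · rw [if_neg (fun h => hp h.1), if_neg (fun h => hp h.1)]

end Pool.Agent.L0h98.T7
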